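import Pool.Agent.R295.Hopf.Witt

/-!
# MP_f83094_an: an affine Hopf algebra with non-injective Arens-Michael enveloping homomorphism

The Hopf algebra is the universal enveloping algebra of the Witt algebra `W`, which has a basis
`e_n`, `n ∈ ℤ`, with `[e_m, e_n] = (n - m) e_{m + n}` and is generated by `e_{±1}, e_{±2}`. Let `p`
be a submultiplicative seminorm on `U(W)`. As `[e_0, e_n] = n e_n`, we have
`|n| p(e_n) ≤ 2 p(e_0) p(e_n)`, so `p(e_n) = 0` for `|n|` large, and then `p(e_n) = 0` for all `n`.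
-/

set_option autoImplicit false

namespace Pool.Agent.Results.MP_f83094_an.WittKernel

/-- There are a finitely generated complex Hopf algebra `H` and `h ≠ 0` in `H` such that `p h = 0`
for every submultiplicative seminorm `p` on `H`. -/
theorem result :
    ∃ (H : Type) (_ : Ring H) (_ : HopfAlgebra ℂ H), Algebra.FiniteType ℂ H ∧
      ∃ h : H, h ≠ 0 ∧ ∀ p : Seminorm ℂ H, (∀ a b, p (a * b) ≤ p a * p b) → p h = 0 :=
  ⟨Pool.Agent.R295.Hopf.UW, inferInstance, Pool.Agent.R295.Hopf.instHopfAlgebra ℂ _,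
    Pool.Agent.R295.Hopf.finiteType_UW, _, Pool.Agent.R295.Hopf.j_w_ne_zero,
    fun p hp => Pool.Agent.R295.Hopf.p_w p hp 0⟩

end Pool.Agent.Results.MP_f83094_an.WittKernel
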